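import Pool.Agent.H164R2.Edges

set_option autoImplicit false
set_option linter.unusedSectionVars false

/-!
Circuit covers through a 2-regular subgraph S from a 4-flow which may vanish on S and on a set Z.
Adapted from Pool.Agent.H164R2 (Graph, Main, Strong, Edges).
-/

open Finset Matrix

namespace Pool.Agent.W157.SCZ

open Pool.Agent.H164R2
open Pool.Agent.Helper347.Sab
open Pool.Agent.Helper998.Near (Rch join mem_decomp rch_symm)

variable {V E : Type} [Fintype V] [DecidableEq V] [Fintype E] [DecidableEq E]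
variable {K : Type} [Field K] [Fintype K] [DecidableEq K] [CharP K 2]

theorem count_aux2 (s a b d : Prop) [Decidable s] [Decidable a] [Decidable b]
    [Decidable d] (c0 : ¬ s) :
    (if s then 1 else 0) + ((if d then 1 else 0) +
      ((if (((s ∧ ¬ d) ∨ (d ∧ ¬ s)) ∧ ¬ a) ∨ (a ∧ ¬ ((s ∧ ¬ d) ∨ (d ∧ ¬ s))) then 1 else 0) +
      ((if (((s ∧ ¬ d) ∨ (d ∧ ¬ s)) ∧ ¬ b) ∨ (b ∧ ¬ ((s ∧ ¬ d) ∨ (d ∧ ¬ s))) then 1 else 0) +
      (if (((s ∧ ¬ d) ∨ (d ∧ ¬ s)) ∧ ¬ ((a ∧ ¬ b) ∨ (b ∧ ¬ a))) ∨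
        (((a ∧ ¬ b) ∨ (b ∧ ¬ a)) ∧ ¬ ((s ∧ ¬ d) ∨ (d ∧ ¬ s))) then 1 else 0)))) ∈
      ({0, 2, 4} : Finset ℕ) := by
  by_cases h3 : a <;> by_cases h4 : b <;>
    by_cases h5 : d <;> simp_all

/-- five even sets (S and four others) from a flow whose zeros lie on S and Z and meet an even set
in S exactly there -/
theorem coverZ (G : MGraph V E) (H S D Z : Finset E) (hZS : Disjoint Z S) (hSH : S ⊆ H)
    (hDH : D ⊆ H) (hS : ∀ v, dg G S v = 0 ∨ dg G S v = 2) (hD : Ev G D)
    (p q : K →+ ZMod 2) (hpq : ∀ x, p x = 0 → q x = 0 → x = 0)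
    (a : E → K) (ha : ∀ v, bd G a v = 0) (haH : ∀ e, e ∉ H → a e = 0)
    (hnz : ∀ e ∈ H, e ∉ S → e ∉ Z → a e ≠ 0) (hDS : ∀ e ∈ S, (e ∈ D ↔ a e = 0)) :
    ∃ Q : Fin 4 → Finset E, (∀ i, Ev G (Q i)) ∧
      (∀ e, e ∉ Z → (if e ∈ S then 1 else 0) + (univ.filter fun i => e ∈ Q i).card =
        if e ∈ H then 2 else 0) ∧
      (∀ e ∈ Z, (univ.filter fun i => e ∈ Q i).card ∈ ({0, 2, 4} : Finset ℕ)) := by
  have hev : ∀ r : K →+ ZMod 2, Ev G (univ.filter fun e => r (a e) ≠ 0) := by
    intro r v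
    rw [Pool.Agent.Helper998.Near.even_iff_cast]
    have h1 : r (bd G a v) = 0 := by rw [ha v, map_zero]
    unfold bd at h1
    rw [map_sum] at h1
    unfold dg
    rw [card_filter, Nat.cast_sum, sum_filter]
    refine Eq.trans (sum_congr rfl fun e _ => ?_) h1
    by_cases h2 : v ∈ G.ends e
    · simp only [h2, if_true]
      rcases z2_cases (r (a e)) with h | h
      · simp [h]
      · simp [h]
    · simp [h2]
  obtain ⟨A, hA⟩ : ∃ A : Finset E, A = univ.filter fun e => p (a e) ≠ 0 := ⟨_, rfl⟩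
  obtain ⟨B, hB⟩ : ∃ B : Finset E, B = univ.filter fun e => q (a e) ≠ 0 := ⟨_, rfl⟩
  have hAe : Ev G A := by rw [hA]; exact hev p
  have hBe : Ev G B := by rw [hB]; exact hev q
  have hAB0 : ∀ e, (e ∉ A ∧ e ∉ B) ↔ a e = 0 := by
    intro e
    rw [hA, hB, mem_filter, mem_filter]
    simp only [mem_univ, true_and, not_not, ne_eq]
    constructor
    · rintro ⟨h1, h2⟩
      exact hpq _ h1 h2
    · intro h
      rw [h, map_zero, map_zero]
      exact ⟨rfl, rfl⟩
  have hAH : A ⊆ H := by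
    intro e he
    by_contra hcon
    exact ((hAB0 e).2 (haH e hcon)).1 he
  have hBH : B ⊆ H := by
    intro e he
    by_contra hcon
    exact ((hAB0 e).2 (haH e hcon)).2 he
  have hSe : Ev G S := by
    intro v; rcases hS v with h | h <;> rw [h] <;> decide
  have hSD := ev_symmDiff hSe hD
  have hAB := ev_symmDiff hAe hBe
  obtain ⟨Q, hQ⟩ : ∃ Q : Fin 4 → Finset E, Q = ![D, symmDiff (symmDiff S D) A,
    symmDiff (symmDiff S D) B, symmDiff (symmDiff S D) (symmDiff A B)] := ⟨_, rfl⟩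
  have q0 : Q 0 = D := by rw [hQ]; rfl
  have q1 : Q 1 = symmDiff (symmDiff S D) A := by rw [hQ]; rfl
  have q2 : Q 2 = symmDiff (symmDiff S D) B := by rw [hQ]; rfl
  have q3 : Q 3 = symmDiff (symmDiff S D) (symmDiff A B) := by rw [hQ]; rfl
  have hc : ∀ e, (univ.filter fun i => e ∈ Q i).card = (if e ∈ Q 0 then 1 else 0) +
      ((if e ∈ Q 1 then 1 else 0) + ((if e ∈ Q 2 then 1 else 0) +
        (if e ∈ Q 3 then 1 else 0))) := by
    intro e
    rw [card_filter, Fin.sum_univ_four, add_assoc, add_assoc]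
  refine ⟨Q, ?_, ?_, ?_⟩
  · intro i
    fin_cases i
    · show Ev G (Q 0); rw [q0]; exact hD
    · show Ev G (Q 1); rw [q1]; exact ev_symmDiff hSD hAe
    · show Ev G (Q 2); rw [q2]; exact ev_symmDiff hSD hBe
    · show Ev G (Q 3); rw [q3]; exact ev_symmDiff hSD hAB
  · intro e heZ
    rw [hc, q0, q1, q2, q3]
    simp only [mem_symmDiff]
    refine count_aux _ _ _ _ _ (@hSH e) (@hDH e) (@hAH e) (@hBH e) ?_ ?_
    · exact fun h1 h2 h3 => hnz e h1 h2 heZ ((hAB0 e).1 h3)
    · intro h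
      rw [hAB0 e]
      exact hDS e h
  · intro e heZ
    rw [hc, q0, q1, q2, q3]
    simp only [mem_symmDiff]
    have h1 := count_aux2 (e ∈ S) (e ∈ A) (e ∈ B) (e ∈ D) (disjoint_left.1 hZS heZ)
    rw [if_neg (disjoint_left.1 hZS heZ), zero_add] at h1
    exact h1

/-- Double covers containing S from nowhere-zero flows on the individual bridges of S. -/
theorem main_flowZ {B : Type} [Fintype B] [DecidableEq B] (h4 : ∀ x : K, x ^ 4 = x)
    (w : K) (hw0 : w ≠ 0) (hw1 : w ≠ 1)
    (p q : K →+ ZMod 2) (hpq : ∀ x, p x = 0 → q x = 0 → x = 0)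
    (G : MGraph V E) (H S Z0 : Finset E) (hZ0S : Disjoint Z0 S) (hSH : S ⊆ H)
    (hS : ∀ v, dg G S v = 0 ∨ dg G S v = 2)
    (cls : V → B) (hcls : ∀ u v, cls u = cls v → Rch G (H \ S) u v)
    (z : B → E → K) (hz : ∀ b v, bd G (z b) v = 0)
    (hzH : ∀ b e, e ∉ H → z b e = 0)
    (hz0 : ∀ b e, e ∈ H → e ∉ S → ∀ v ∈ G.ends e, cls v ≠ b → z b e = 0)
    (hz1 : ∀ e, e ∈ H → e ∉ S → e ∉ Z0 → ∀ v ∈ G.ends e, z (cls v) e ≠ 0) :
    ∃ Q : Fin 4 → Finset E, (∀ i, Ev G (Q i)) ∧
      (∀ e, e ∉ Z0 → (if e ∈ S then 1 else 0) + (univ.filter fun i => e ∈ Q i).card =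
        if e ∈ H then 2 else 0) ∧
      (∀ e ∈ Z0, (univ.filter fun i => e ∈ Q i).card ∈ ({0, 2, 4} : Finset ℕ)) := by
  classical
  rcases isEmpty_or_nonempty E with hE | hE
  · exact ⟨fun _ => ∅, fun i v => by simp [dg], fun e => (hE.false e).elim,
      fun e => (hE.false e).elim⟩
  have hVne : Nonempty V := by
    obtain ⟨u, _, _, _⟩ := exists_ends G hE.some
    exact ⟨u⟩
  -- chosen S-edges
  have hch : ∀ v, ∃ e1 e2, dg G S v = 2 →
      (e1 ≠ e2 ∧ S.filter (fun e => v ∈ G.ends e) = {e1, e2}) := by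
    intro v
    by_cases hv : dg G S v = 2
    · obtain ⟨e1, e2, h1, h2⟩ := two_edges G S v hv
      exact ⟨e1, e2, fun _ => ⟨h1, h2⟩⟩
    · exact ⟨hE.some, hE.some, fun h => absurd h hv⟩
  choose s s' hs using hch
  obtain ⟨φ, hφ⟩ : ∃ φ : V → K, ∀ v, φ v = if dg G S v = 2 then
      ∑ e ∈ (univ \ S).filter (fun e => v ∈ G.ends e), z (cls v) e else 0 := ⟨_, fun _ => rfl⟩
  obtain ⟨a, haDef⟩ : ∃ a : (B → K) → E → K, ∀ x e, a x e = ∑ b, x b * z b e :=
    ⟨_, fun _ _ => rfl⟩
  have ha : ∀ x v, bd G (a x) v = 0 := by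
    intro x v
    have h1 : bd G (a x) v = ∑ b, x b * bd G (z b) v := by
      unfold bd
      simp only [mul_sum]
      rw [sum_comm]
      refine sum_congr rfl fun e _ => ?_
      by_cases h : v ∈ G.ends e
      · simp only [h, if_true, haDef]
      · simp [h]
    rw [h1]
    exact sum_eq_zero fun b _ => by rw [hz, mul_zero]
  have haH : ∀ x e, e ∉ H → a x e = 0 := by
    intro x e he
    rw [haDef]
    exact sum_eq_zero fun b _ => by rw [hzH b e he, mul_zero]
  have haT : ∀ x e, e ∉ S → ∀ v ∈ G.ends e, a x e = x (cls v) * z (cls v) e := by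
    intro x e heS v hv
    by_cases he : e ∈ H
    · rw [haDef, sum_eq_single (cls v)]
      · intro b _ hb
        rw [hz0 b e he heS v hv (Ne.symm hb), mul_zero]
      · intro h
        exact absurd (mem_univ _) h
    · rw [haH x e he, hzH _ e he, mul_zero]
  obtain ⟨Z, hZ⟩ : ∃ Z : (B → K) → Finset E, ∀ x, Z x = S.filter fun e => a x e = 0 :=
    ⟨_, fun _ => rfl⟩
  have hcount : ∀ x v, ((dg G (Z x) v : ℕ) : K) = (x (cls v) * φ v) ^ 3 +
      (x (cls v) * φ v) * a x (s v) ^ 2 + (x (cls v) * φ v) ^ 2 * a x (s v) := by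
    intro x v
    rcases hS v with h | h
    · have h1 : dg G (Z x) v = 0 := by
        have := dg_mono (G := G) (X := Z x) (Y := S) (by rw [hZ]; exact filter_subset _ _) v
        omega
      rw [h1, hφ, if_neg (by omega)]
      push_cast
      ring
    · rw [hZ]
      refine zero_count h4 G S (a x) v (ha x v) (s v) (s' v) (hs v h).1 (hs v h).2 _ ?_
      rw [hφ, if_pos h, mul_sum]
      refine sum_congr rfl fun e he => ?_
      rw [mem_filter, mem_sdiff] at he
      exact (haT x e he.1.2 v he.2).symm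
  obtain ⟨m, hm⟩ : ∃ m : B → K, ∀ b, m b = ∑ v, if cls v = b then φ v ^ 3 else 0 :=
    ⟨_, fun _ => rfl⟩
  obtain ⟨M, hM⟩ : ∃ M : Matrix B B K, ∀ b c, M b c =
      ∑ v, if cls v = b then φ v ^ 2 * z c (s v) else 0 := ⟨_, fun _ _ => rfl⟩
  have hMx : ∀ x b, (M *ᵥ x) b = ∑ v, if cls v = b then φ v ^ 2 * a x (s v) else 0 := by
    intro x b
    unfold Matrix.mulVec dotProduct
    simp only [hM, sum_mul]
    rw [sum_comm]
    refine sum_congr rfl fun v _ => ?_
    by_cases h : cls v = b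
    · simp only [h, if_true, haDef, mul_sum]
      refine sum_congr rfl fun c _ => ?_
      ring
    · simp [h]
  have hform : ∀ x b, x b ^ 3 * m b + x b * (M *ᵥ x) b ^ 2 + x b ^ 2 * (M *ᵥ x) b =
      ∑ v, if cls v = b then ((dg G (Z x) v : ℕ) : K) else 0 := by
    intro x b
    rw [hMx, sq_sum, hm, mul_sum, mul_sum, mul_sum, ← sum_add_distrib, ← sum_add_distrib]
    refine sum_congr rfl fun v _ => ?_
    by_cases h : cls v = b
    · simp only [h, if_true]
      rw [hcount, h]
      have h5 := h4 (φ v)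
      linear_combination (x b * a x (s v) ^ 2) * h5
    · simp [h]
  have htot : ∀ x : B → K,
      ∑ b, (x b ^ 3 * m b + x b * (M *ᵥ x) b ^ 2 + x b ^ 2 * (M *ᵥ x) b) = 0 := by
    intro x
    simp only [hform]
    rw [sum_comm]
    have h1 : ∀ v, ∑ b, (if cls v = b then ((dg G (Z x) v : ℕ) : K) else 0) =
        ((dg G (Z x) v : ℕ) : K) := by
      intro v
      rw [sum_ite_eq, if_pos (mem_univ _)]
    simp only [h1]
    rw [← Nat.cast_sum]
    exact (even_iff_castK _).1 (handshake G (Z x))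
  obtain ⟨x, hx0, hx⟩ := solve h4 w hw0 hw1 m M htot
  -- parity on the classes
  have hpar : ∀ b, Even (∑ v, if cls v = b then dg G (Z x) v else 0) := by
    intro b
    rw [even_iff_castK (K := K)]
    have h1 := hx b
    rw [hform] at h1
    push_cast
    exact h1
  have hrep : ∀ b, ∃ r, ∀ v, cls v = b → cls r = b := by
    intro b
    by_cases h : ∃ v, cls v = b
    · obtain ⟨v, hv⟩ := h
      exact ⟨v, fun _ _ => hv⟩
    · exact ⟨hVne.some, fun v hv => absurd ⟨v, hv⟩ h⟩
  choose rep hrep using hrep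
  obtain ⟨J, hJ, hJp⟩ := join G (H \ S) (fun v => ((dg G (Z x) v : ℕ) : ZMod 2))
    (fun v => rep (cls v)) (fun v _ => hcls _ _ (hrep _ v rfl).symm)
  have hJ' : ∀ v, ((dg G J v : ℕ) : ZMod 2) = ((dg G (Z x) v : ℕ) : ZMod 2) := by
    intro v
    rw [hJp v]
    have h1 : ∑ u, (if v = rep (cls u) then ((dg G (Z x) u : ℕ) : ZMod 2) else 0) = 0 := by
      by_cases hv : v = rep (cls v)
      · have h2 : ∀ u, (if v = rep (cls u) then ((dg G (Z x) u : ℕ) : ZMod 2) else 0) =
            ((if cls u = cls v then dg G (Z x) u else 0 : ℕ) : ZMod 2) := by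
          intro u
          by_cases h : cls u = cls v
          · rw [if_pos h, if_pos (by rw [h]; exact hv)]
          · rw [if_neg h, if_neg, Nat.cast_zero]
            intro h3
            apply h
            rw [h3]
            exact (hrep (cls u) u rfl).symm
        simp only [h2]
        rw [← Nat.cast_sum]
        exact (Pool.Agent.Helper998.Near.even_iff_cast _).1 (hpar (cls v))
      · refine sum_eq_zero fun u _ => ?_
        rw [if_neg]
        intro h3
        apply hv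
        have h4 : cls v = cls u := by rw [h3]; exact hrep (cls u) u rfl
        rw [h4]
        exact h3
    rw [h1, add_zero]
  have hZS : Z x ⊆ S := by rw [hZ]; exact filter_subset _ _
  have hdisj : Disjoint (Z x) J := by
    rw [disjoint_left]
    intro e h1 h2
    exact (mem_sdiff.1 (hJ h2)).2 (hZS h1)
  refine coverZ G H S (Z x ∪ J) Z0 hZ0S hSH ?_ hS ?_ p q hpq (a x) (ha x) (haH x) ?_ ?_
  · intro e he
    rw [mem_union] at he
    rcases he with h | h
    · exact hSH (hZS h)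
    · exact (mem_sdiff.1 (hJ h)).1
  · intro v
    have h1 := dg_sdiff (G := G) (X := Z x ∪ J) (Y := Z x) subset_union_left v
    have h3 : (Z x ∪ J) \ Z x = J := by
      rw [union_sdiff_left]
      exact sdiff_eq_self_of_disjoint hdisj.symm
    rw [h3] at h1
    rw [Pool.Agent.Helper998.Near.even_iff_cast, ← h1, Nat.cast_add, hJ' v]
    exact CharTwo.add_self_eq_zero _
  · intro e he heS heZ
    obtain ⟨u, v, _, hends⟩ := exists_ends G e
    have hu : u ∈ G.ends e := by rw [hends]; simp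
    rw [haT x e heS u hu]
    exact mul_ne_zero (hx0 _) (hz1 e he heS heZ u hu)
  · intro e he
    rw [mem_union, hZ, mem_filter]
    constructor
    · rintro (h | h)
      · exact h.2
      · exact absurd he (mem_sdiff.1 (hJ h)).2
    · intro h
      exact Or.inl ⟨he, h⟩

/-- The main theorem: if every bridge of the 2-regular subgraph S of the subcubic graph H has its
own nowhere-zero 4-flow after contraction of E(S), then some circuit double cover of H contains
all circuits of S. -/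
theorem strongZ (G : MGraph V E) (H S Z : Finset E) (hZS : Disjoint Z S) (hSH : S ⊆ H)
    (hS : ∀ v, dg G S v = 0 ∨ dg G S v = 2)
    (h : ∀ v : V, ∃ A B : Finset E, Ev G A ∧ Ev G B ∧ A ⊆ H ∧ B ⊆ H ∧
      (∀ f, f ∉ S → (f ∈ A ∨ f ∈ B) → ∀ u ∈ G.ends f, Rch G (H \ S) v u) ∧
      (∀ f ∈ H, f ∉ S → f ∉ Z → (∀ u ∈ G.ends f, Rch G (H \ S) v u) → f ∈ A ∨ f ∈ B)) :
    ∃ Q : Fin 4 → Finset E, (∀ i, Ev G (Q i)) ∧
      (∀ e, e ∉ Z → (if e ∈ S then 1 else 0) + (univ.filter fun i => e ∈ Q i).card =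
        if e ∈ H then 2 else 0) ∧
      (∀ e ∈ Z, (univ.filter fun i => e ∈ Q i).card ∈ ({0, 2, 4} : Finset ℕ)) := by
  classical
  let _inst : Fintype (GaloisField 2 2) := Fintype.ofFinite _
  have hcard : Fintype.card (GaloisField 2 2) = 4 := by
    rw [← Nat.card_eq_fintype_card, GaloisField.card 2 2 (by norm_num)]
    norm_num
  have h4 : ∀ x : GaloisField 2 2, x ^ 4 = x := by
    intro x
    have := FiniteField.pow_card x
    rwa [hcard] at this
  obtain ⟨w, hw⟩ : ∃ w : GaloisField 2 2, w ∉ ({0, 1} : Finset (GaloisField 2 2)) := by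
    by_contra hcon
    push Not at hcon
    have h1 : (univ : Finset (GaloisField 2 2)) ⊆ {0, 1} := fun x _ => hcon x
    have h2 := card_le_card h1
    rw [card_univ, hcard] at h2
    have h3 : ({0, 1} : Finset (GaloisField 2 2)).card ≤ 2 := card_le_two
    omega
  rw [mem_insert, mem_singleton, not_or] at hw
  obtain ⟨hw0, hw1⟩ := hw
  let bas := Module.finBasisOfFinrankEq (ZMod 2) (GaloisField 2 2)
    (GaloisField.finrank 2 (n := 2) (by norm_num))
  have hpq : ∀ x : GaloisField 2 2, (bas.coord 0).toAddMonoidHom x = 0 →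
      (bas.coord 1).toAddMonoidHom x = 0 → x = 0 := by
    intro x h1 h2
    apply bas.ext_elem
    intro i
    rw [map_zero, Finsupp.zero_apply]
    fin_cases i
    · exact h1
    · exact h2
  -- classes
  let st : Setoid V := ⟨Rch G (H \ S), ⟨fun _ => Relation.ReflTransGen.refl,
    fun hab => rch_symm G _ _ _ hab, fun hab hbc => hab.trans hbc⟩⟩
  have hrep : ∀ b : Quotient st, ∃ v, (Quotient.mk st v) = b := fun b => Quotient.exists_rep b
  choose rep hrep using hrep
  choose A B hA hB hAH hBH h1 h2 using h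
  have hcl : ∀ u v, Quotient.mk st u = Quotient.mk st v ↔ Rch G (H \ S) u v := by
    intro u v
    exact Quotient.eq
  have hone : ∀ f ∈ H, f ∉ S → ∀ u ∈ G.ends f, ∀ v ∈ G.ends f, Rch G (H \ S) u v := by
    intro f hf hfS u hu v hv
    by_cases huv : u = v
    · rw [huv]
    · refine Relation.ReflTransGen.single ⟨f, mem_sdiff.2 ⟨hf, hfS⟩, ?_⟩
      exact (Sym2.mem_and_mem_iff huv).1 ⟨hu, hv⟩
  have hwne : (1 : GaloisField 2 2) + w ≠ 0 := by
    intro h3
    apply hw1
    have h5 := two0 (1 : GaloisField 2 2)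
    linear_combination h3 - h5
  refine main_flowZ (K := GaloisField 2 2) h4 w hw0 hw1 _ _ hpq G H S Z hZS hSH hS
    (Quotient.mk st) (fun u v huv => (hcl u v).1 huv)
    (fun b e => (if e ∈ A (rep b) then 1 else 0) + (if e ∈ B (rep b) then w else 0)) ?_ ?_ ?_ ?_
  · intro b v
    have h3 := bd_ind (K := GaloisField 2 2) G _ 1 (hA (rep b)) v
    have h5 := bd_ind (K := GaloisField 2 2) G _ w (hB (rep b)) v
    have h7 : bd G (fun e => (if e ∈ A (rep b) then 1 else 0) +
        (if e ∈ B (rep b) then w else 0)) v =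
        bd G (fun e => if e ∈ A (rep b) then (1 : GaloisField 2 2) else 0) v +
        bd G (fun e => if e ∈ B (rep b) then w else 0) v := by
      unfold bd
      rw [← sum_add_distrib]
      refine sum_congr rfl fun e _ => ?_
      by_cases h6 : v ∈ G.ends e <;> simp [h6]
    rw [h7, h3, h5, add_zero]
  · intro b e he
    rw [if_neg fun h3 => he (hAH _ h3), if_neg fun h3 => he (hBH _ h3), add_zero]
  · intro b e he heS v hv hvb
    have h3 : ¬ (e ∈ A (rep b) ∨ e ∈ B (rep b)) := by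
      intro h5
      apply hvb
      rw [← hrep b]
      exact (hcl _ _).2 (rch_symm G _ _ _ (h1 _ e heS h5 v hv))
    rw [not_or] at h3
    rw [if_neg h3.1, if_neg h3.2, add_zero]
  · intro e he heS heZ v hv
    have h3 : Rch G (H \ S) (rep (Quotient.mk st v)) v := (hcl _ _).1 (hrep _)
    have h5 := h2 (rep (Quotient.mk st v)) e he heS heZ
      (fun u hu => h3.trans (hone e he heS v hv u hu))
    by_cases h6 : e ∈ A (rep (Quotient.mk st v)) <;> by_cases h7 : e ∈ B (rep (Quotient.mk st v))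
    · simp only [h6, h7, if_true]; exact hwne
    · simp [h6, h7]
    · simp only [h6, h7, if_true, if_false, zero_add]; exact hw0
    · exact absurd h5 (by tauto)

/-- restricting an even set to the part of H reached from v0 without using C -/
theorem part_flow (G : MGraph V E) (H C : Finset E) (hC : IsCircuit G C) (A : Finset E)
    (hA : Ev G A) (hAH : A ⊆ H) (v0 : V) :
    ∃ A' : Finset E, Ev G A' ∧ ∀ f, f ∉ C →
      (f ∈ A' ↔ f ∈ A ∧ ∀ u ∈ G.ends f, Rch G (H \ C) v0 u) := by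
  classical
  have hone : ∀ f ∈ A, f ∉ C → ∀ u ∈ G.ends f, ∀ v ∈ G.ends f, Rch G (H \ C) u v := by
    intro f hfA hfS u hu v hv
    by_cases huv : u = v
    · rw [huv]
    · refine Relation.ReflTransGen.single ⟨f, mem_sdiff.2 ⟨hAH hfA, hfS⟩, ?_⟩
      exact (Sym2.mem_and_mem_iff huv).1 ⟨hu, hv⟩
  have hnotC : ∀ v, dg G C v = 0 → ∀ e, v ∈ G.ends e → e ∉ C := by
    intro v hv e he h
    have := dg_pos_of_mem (G := G) h he
    omega
  obtain ⟨M, hM⟩ : ∃ M : Finset E, ∀ f, f ∈ M ↔ f ∉ C ∧ f ∈ A ∧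
      ∀ u ∈ G.ends f, Rch G (H \ C) v0 u :=
    ⟨univ.filter (fun f => f ∉ C ∧ f ∈ A ∧ ∀ u ∈ G.ends f, Rch G (H \ C) v0 u), by
      intro e; simp⟩
  obtain ⟨J, hJC, hJ⟩ := Pool.Agent.Results.MP_e720fa_co.ColourableComplement.circ_complete
    G C M hC (by
      rw [disjoint_left]
      intro e he h
      exact ((hM e).1 h).1 he) (by
      intro v hv
      by_cases hr : Rch G (H \ C) v0 v
      · have h2 : (M.filter fun f => v ∈ G.ends f) = A.filter fun f => v ∈ G.ends f := by
          ext f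
          rw [mem_filter, mem_filter, hM]
          constructor
          · rintro ⟨h3, h4⟩
            exact ⟨h3.2.1, h4⟩
          · rintro ⟨h3, h4⟩
            have hfC := hnotC v hv f h4
            exact ⟨⟨hfC, h3, fun u hu => hr.trans (hone f h3 hfC v h4 u hu)⟩, h4⟩
        unfold dg
        rw [h2]
        exact hA v
      · have h1 : dg G M v = 0 := by
          unfold dg
          rw [card_eq_zero, filter_eq_empty_iff]
          intro e he hv'
          exact hr (((hM e).1 he).2.2 v hv')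
        rw [h1]
        exact ⟨0, rfl⟩)
  refine ⟨M ∪ J, hJ, fun f hf => ?_⟩
  rw [mem_union, hM]
  constructor
  · rintro (h | h)
    · exact h.2
    · exact absurd (hJC h) hf
  · intro h
    exact Or.inl ⟨hf, h⟩

/-- C and four even sets of H from a nowhere-zero 4-flow of H modulo C -/
theorem strong_circuitH (G : MGraph V E) (H C : Finset E) (hCH : C ⊆ H) (hC : IsCircuit G C)
    (A B : Finset E) (hA : Ev G A) (hB : Ev G B) (hAH : A ⊆ H) (hBH : B ⊆ H)
    (hAB : ∀ e ∈ H, e ∉ C → e ∈ A ∨ e ∈ B) :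
    ∃ Q : Fin 4 → Finset E, (∀ i, Ev G (Q i)) ∧
      (∀ e, (if e ∈ C then 1 else 0) + (univ.filter fun i => e ∈ Q i).card =
        if e ∈ H then 2 else 0) := by
  obtain ⟨Q, h1, h2, _⟩ := strongZ G H C ∅ (disjoint_empty_left _) hCH hC.2.1 (by
    intro v
    obtain ⟨A', a1, a2⟩ := part_flow G H C hC A hA hAH v
    obtain ⟨B', b1, b2⟩ := part_flow G H C hC B hB hBH v
    refine ⟨A', B', a1, b1, ?_, ?_, ?_, ?_⟩
    · intro f hf
      by_cases hfC : f ∈ C
      · exact hCH hfC
      · exact hAH ((a2 f hfC).1 hf).1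
    · intro f hf
      by_cases hfC : f ∈ C
      · exact hCH hfC
      · exact hBH ((b2 f hfC).1 hf).1
    · intro f hf h
      rcases h with h | h
      · exact ((a2 f hf).1 h).2
      · exact ((b2 f hf).1 h).2
    · intro f hfH hf _ hr
      rcases hAB f hfH hf with h | h
      · exact Or.inl ((a2 f hf).2 ⟨h, hr⟩)
      · exact Or.inr ((b2 f hf).2 ⟨h, hr⟩))
  exact ⟨Q, h1, fun e => h2 e (by simp)⟩

end Pool.Agent.W157.SCZ
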