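import Pool.Agent.W157.SCZ.FlowC

set_option autoImplicit false
set_option linter.unusedSectionVars false
set_option linter.unusedSimpArgs false

/-!
Jaeger's eight-flow theorem with the third coordinate vanishing at a prescribed vertex `c`.
-/

namespace Pool.Agent.W157.SCZ

open Finset
open Pool.Agent.Helper879.ECD (sp Ind sp_mono mem_sp mem_sp_exch sp_exch F2 IsFlow inc fnl
  fnl_single fnl_inc cn f2_add_self exists_coeff)

section Flow

variable {W E : Type} [Fintype W] [DecidableEq W] [Fintype E] [DecidableEq E]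

/-- a flow on `M` that is one off a spanning set -/
lemma flow_of_span (a b : E → W) (M T : Finset E) (hT : T ⊆ M)
    (h : sp F2 (inc a b) M ≤ sp F2 (inc a b) T) :
    ∃ ψ : E → F2, (∀ e ∈ M, e ∉ T → ψ e = 1) ∧ (∀ e, e ∉ M → ψ e = 0) ∧ IsFlow a b ψ := by
  classical
  have hτ : ∑ e ∈ M, inc a b e ∈ sp F2 (inc a b) T :=
    h (Submodule.sum_mem _ (fun e he => mem_sp he))
  obtain ⟨c, hc⟩ := exists_coeff hτ
  refine ⟨fun e => if e ∈ M then 1 + (if e ∈ T then c e else 0) else 0, ?_, ?_, ?_⟩
  · intro e he heT; simp [he, heT]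
  · intro e he; simp [he]
  · intro d
    have h1 : ∑ e, (if e ∈ M then 1 + (if e ∈ T then c e else 0) else 0) • inc a b e = 0 := by
      have h2 : ∀ e ∈ (univ : Finset E),
          (if e ∈ M then 1 + (if e ∈ T then c e else 0) else 0) • inc a b e =
          (if e ∈ M then inc a b e else 0) + (if e ∈ T then c e • inc a b e else 0) := by
        intro e _
        by_cases h3 : e ∈ M
        · by_cases h4 : e ∈ T
          · simp only [h3, h4, if_true]
            rw [add_smul, one_smul]
          · simp only [h3, h4, if_true, if_false, add_zero, one_smul]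
        · have h4 : e ∉ T := fun h4 => h3 (hT h4)
          simp only [h3, h4, if_false, zero_smul, add_zero]
      rw [Finset.sum_congr rfl h2, Finset.sum_add_distrib, ← Finset.sum_filter,
        ← Finset.sum_filter, Finset.filter_mem_eq_inter, Finset.univ_inter,
        Finset.filter_mem_eq_inter, Finset.univ_inter, hc]
      ext w; exact f2_add_self _
    have h2 := congrArg (fnl d) h1
    rw [map_sum, map_zero] at h2
    refine Eq.trans ?_ h2
    apply Finset.sum_congr rfl
    intro e _
    rw [map_smul, fnl_inc, smul_eq_mul]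

/-- nowhere-zero flows when every nonzero cut has at least three edges -/
lemma flowC (a b : E → W) (c : W) (h4 : ∀ X : Finset W, cn a b univ X = 0 ∨ 3 ≤ cn a b univ X) :
    ∃ ψ : Fin 3 → E → F2, (∀ e, ψ 0 e ≠ 0 ∨ ψ 1 e ≠ 0 ∨ ψ 2 e ≠ 0) ∧
      (∀ i, IsFlow a b (ψ i)) ∧ ∀ e, At a b c e → ψ 2 e = 0 := by
  classical
  obtain ⟨M, hM⟩ : ∃ M : Finset E, M = univ.filter (fun e => ¬ At a b c e) := ⟨_, rfl⟩
  have hMm : ∀ e, e ∈ M ↔ ¬ At a b c e := by intro e; rw [hM]; simp
  obtain ⟨y, hy⟩ : ∃ y : E × Fin 2 → (W → F2), ∀ p, y p =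
    if (At a b c p.1 ∧ p.2 = 1) then 0 else inc a b p.1 := ⟨_, fun _ => rfl⟩
  obtain ⟨z, hz⟩ : ∃ z : E × Fin 2 → (W → F2), ∀ p, z p =
    if (At a b c p.1) then 0 else inc a b p.1 := ⟨_, fun _ => rfl⟩
  obtain ⟨x, hx⟩ : ∃ x : Fin 3 → E × Fin 2 → (W → F2), ∀ i, x i = if i = 2 then z else y :=
    ⟨_, fun _ => rfl⟩
  have hx0 : x 0 = y := by rw [hx, if_neg (by decide)]
  have hx1 : x 1 = y := by rw [hx, if_neg (by decide)]
  have hx2 : x 2 = z := by rw [hx, if_pos rfl]
  have hyu : sp F2 y univ = sp F2 (inc a b) univ := by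
    apply le_antisymm
    · unfold sp
      rw [Submodule.span_le]
      rintro _ ⟨p, _, rfl⟩
      rw [hy]
      split_ifs
      · exact Submodule.zero_mem _
      · exact Submodule.subset_span ⟨p.1, by simp, rfl⟩
    · unfold sp
      rw [Submodule.span_le]
      rintro _ ⟨e, _, rfl⟩
      apply Submodule.subset_span
      refine ⟨(e, 0), by simp, ?_⟩
      rw [hy, if_neg]
      rintro ⟨_, h⟩
      exact absurd h (show ¬ ((0 : Fin 2) = 1) by decide)
  have hzu : sp F2 z univ = sp F2 (inc a b) M := by
    apply le_antisymm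
    · unfold sp
      rw [Submodule.span_le]
      rintro _ ⟨p, _, rfl⟩
      rw [hz]
      split_ifs with h
      · exact Submodule.zero_mem _
      · exact Submodule.subset_span ⟨p.1, Finset.mem_coe.2 ((hMm _).2 h), rfl⟩
    · unfold sp
      rw [Submodule.span_le]
      rintro _ ⟨e, he, rfl⟩
      apply Submodule.subset_span
      refine ⟨(e, 0), by simp, ?_⟩
      rw [hz, if_neg]
      exact (hMm e).1 (Finset.mem_coe.1 he)
  have hrank : ∀ R : Finset (E × Fin 2), ∑ i, Module.finrank F2 (sp F2 (x i) univ) ≤
      ∑ i, Module.finrank F2 (sp F2 (x i) R) +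
        (univ.filter (fun p : E × Fin 2 => ∃ i, ¬ x i p ∈ sp F2 (x i) R)).card := by
    intro R
    have h31 : sp F2 z R ≤ sp F2 y R := by
      unfold sp
      rw [Submodule.span_le]
      rintro _ ⟨p, hp, rfl⟩
      rw [hz]
      split_ifs with h
      · exact Submodule.zero_mem _
      · apply Submodule.subset_span
        refine ⟨p, hp, ?_⟩
        rw [hy, if_neg]
        exact fun h' => h h'.1
    have h1 := rankC a b c h4 (sp F2 y R) (sp F2 z R) h31
    rw [← hM] at h1
    rw [Fin.sum_univ_three, Fin.sum_univ_three, hx0, hx1, hx2, hyu, hzu]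
    have h2 : 2 * (M.filter (fun e => ¬ inc a b e ∈ sp F2 z R)).card +
        ((univ.filter (fun e => At a b c e)).filter (fun e => ¬ inc a b e ∈ sp F2 y R)).card ≤
        (univ.filter (fun p : E × Fin 2 => ∃ i, ¬ x i p ∈ sp F2 (x i) R)).card := by
      have h3 : Disjoint ((M.filter (fun e => ¬ inc a b e ∈ sp F2 z R)) ×ˢ
          (univ : Finset (Fin 2)))
          (((univ.filter (fun e => At a b c e)).filter
            (fun e => ¬ inc a b e ∈ sp F2 y R)) ×ˢ ({0} : Finset (Fin 2))) := by
        rw [Finset.disjoint_left]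
        rintro ⟨e, j⟩ h5 h6
        rw [Finset.mem_product, Finset.mem_filter, hMm] at h5
        rw [Finset.mem_product, Finset.mem_filter, Finset.mem_filter] at h6
        exact h5.1.1 h6.1.1.2
      have h5 := Finset.card_union_of_disjoint h3
      rw [Finset.card_product, Finset.card_product, Finset.card_univ, Fintype.card_fin,
        Finset.card_singleton, mul_one, mul_comm] at h5
      rw [← h5]
      apply Finset.card_le_card
      rintro ⟨e, j⟩ h6
      rw [Finset.mem_filter]
      refine ⟨Finset.mem_univ _, ?_⟩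
      rw [Finset.mem_union, Finset.mem_product, Finset.mem_product, Finset.mem_filter,
        Finset.mem_filter, Finset.mem_filter, hMm] at h6
      rcases h6 with h6 | h6
      · refine ⟨2, ?_⟩
        rw [hx2, hz, if_neg h6.1.1]
        exact h6.1.2
      · refine ⟨0, ?_⟩
        rw [hx0, hy, if_neg]
        · exact h6.1.2
        · rintro ⟨_, h7⟩
          have h8 := Finset.mem_singleton.1 h6.2
          rw [h8] at h7
          exact absurd h7 (by decide)
    omega
  obtain ⟨I, hd, hI⟩ := packF (K := Fin 3) (F := F2) (x := x) (fun R => by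
    convert hrank R)
  -- the two spanning sets
  have hy' : ∀ i : Fin 3, x i = y → ∃ ψ : E → F2,
      (∀ e, ¬ ((e, 0) ∈ I i ∨ ((e, 1) ∈ I i ∧ ¬ At a b c e)) → ψ e = 1) ∧ IsFlow a b ψ := by
    intro i hi
    obtain ⟨ψ, h1, h2, h3⟩ := flow_of_span a b univ
      (univ.filter (fun e => (e, (0 : Fin 2)) ∈ I i ∨ ((e, (1 : Fin 2)) ∈ I i ∧ ¬ At a b c e)))
      (Finset.subset_univ _) (by
        rw [← hyu, ← hi, ← hI i, hi]
        conv_lhs => unfold sp
        rw [Submodule.span_le]
        rintro _ ⟨⟨e, j⟩, hp, rfl⟩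
        rw [hy]
        split_ifs with h
        · exact Submodule.zero_mem _
        · apply mem_sp
          rw [Finset.mem_filter]
          refine ⟨Finset.mem_univ _, ?_⟩
          have hp' := Finset.mem_coe.1 hp
          fin_cases j
          · exact Or.inl hp'
          · exact Or.inr ⟨hp', fun h' => h ⟨h', rfl⟩⟩)
    refine ⟨ψ, fun e he => h1 e (Finset.mem_univ _) ?_, h3⟩
    rw [Finset.mem_filter]
    exact fun h => he h.2
  obtain ⟨ψ0, a0, b0⟩ := hy' 0 hx0
  obtain ⟨ψ1, a1, b1⟩ := hy' 1 hx1
  obtain ⟨ψ2, a2, c2, b2⟩ := flow_of_span a b M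
      (M.filter (fun e => (e, (0 : Fin 2)) ∈ I 2 ∨ (e, (1 : Fin 2)) ∈ I 2))
      (Finset.filter_subset _ _) (by
        rw [← hzu, ← hx2, ← hI 2, hx2]
        conv_lhs => unfold sp
        rw [Submodule.span_le]
        rintro _ ⟨⟨e, j⟩, hp, rfl⟩
        rw [hz]
        split_ifs with h
        · exact Submodule.zero_mem _
        · apply mem_sp
          rw [Finset.mem_filter, hMm]
          refine ⟨h, ?_⟩
          have hp' := Finset.mem_coe.1 hp
          fin_cases j
          · exact Or.inl hp'
          · exact Or.inr hp')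
  refine ⟨![ψ0, ψ1, ψ2], ?_, ?_, ?_⟩
  · intro e
    show ψ0 e ≠ 0 ∨ ψ1 e ≠ 0 ∨ ψ2 e ≠ 0
    by_contra hcon
    push Not at hcon
    obtain ⟨z0, z1, z2⟩ := hcon
    have hone : (0 : F2) ≠ 1 := by decide
    have m0 : (e, 0) ∈ I 0 ∨ ((e, 1) ∈ I 0 ∧ ¬ At a b c e) := by
      by_contra h
      exact hone (z0.symm.trans (a0 e h))
    have m1 : (e, 0) ∈ I 1 ∨ ((e, 1) ∈ I 1 ∧ ¬ At a b c e) := by
      by_contra h
      exact hone (z1.symm.trans (a1 e h))
    have d01 := Finset.disjoint_left.1 (hd 0 1 (by decide))
    have d02 := Finset.disjoint_left.1 (hd 0 2 (by decide))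
    have d12 := Finset.disjoint_left.1 (hd 1 2 (by decide))
    by_cases hat : At a b c e
    · have m0' := m0.resolve_right (fun h => h.2 hat)
      have m1' := m1.resolve_right (fun h => h.2 hat)
      exact d01 m0' m1'
    · have m2 : (e, 0) ∈ I 2 ∨ (e, 1) ∈ I 2 := by
        by_contra h
        refine hone (z2.symm.trans (a2 e ((hMm e).2 hat) ?_))
        rw [Finset.mem_filter]
        exact fun h' => h h'.2
      rcases m0 with m0 | ⟨m0, _⟩ <;> rcases m1 with m1 | ⟨m1, _⟩ <;> rcases m2 with m2 | m2
      · exact d01 m0 m1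
      · exact d01 m0 m1
      · exact d02 m0 m2
      · exact d12 m1 m2
      · exact d12 m1 m2
      · exact d02 m0 m2
      · exact d01 m0 m1
      · exact d01 m0 m1
  · intro i
    fin_cases i
    · exact b0
    · exact b1
    · exact b2
  · intro e he
    show ψ2 e = 0
    exact c2 e (by rw [hMm]; exact not_not.2 he)

end Flow

/-- Jaeger, Kilpatrick with the third coordinate vanishing at `c`. -/
theorem exists_flowC {W E : Type} [Fintype W] [DecidableEq W] [Fintype E] [DecidableEq E] :
    ∀ (n : ℕ) (a b : E → W) (c : W), (univ.filter (fun e => a e ≠ b e)).card = n →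
      (∀ X : Finset W, cn a b univ X ≠ 1) →
      ∃ ψ : Fin 3 → E → F2, (∀ e, ψ 0 e ≠ 0 ∨ ψ 1 e ≠ 0 ∨ ψ 2 e ≠ 0) ∧
        (∀ i, IsFlow a b (ψ i)) ∧ ∀ e, At a b c e → ψ 2 e = 0 := by
  intro n
  induction n using Nat.strong_induction_on with
  | _ n ih =>
  intro a b c hn h13
  by_cases h4 : ∀ X : Finset W, cn a b univ X = 0 ∨ 3 ≤ cn a b univ X
  · exact flowC a b c h4
  · push Not at h4
    obtain ⟨X, hX0, hX4⟩ := h4
    have hX := h13 X
    have hX2 : cn a b univ X = 2 := by omega
    unfold cn at hX2
    obtain ⟨f, g, hfg, hmem, hfc⟩ : ∃ f g : E, f ≠ g ∧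
        (∀ e, ¬ (a e ∈ X ↔ b e ∈ X) ↔ (e = f ∨ e = g)) ∧ (At a b c f → At a b c g) := by
      obtain ⟨f, g, hfg, hset⟩ := Finset.card_eq_two.1 hX2
      have hmem : ∀ e, ¬ (a e ∈ X ↔ b e ∈ X) ↔ (e = f ∨ e = g) := by
        intro e
        have : e ∈ univ.filter (fun e => ¬ (a e ∈ X ↔ b e ∈ X)) ↔ e ∈ ({f, g} : Finset E) := by
          rw [hset]
        simpa using this
      by_cases h : At a b c f → At a b c g
      · exact ⟨f, g, hfg, hmem, h⟩
      · refine ⟨g, f, Ne.symm hfg, fun e => by rw [hmem e]; tauto, ?_⟩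
        intro hg
        exact absurd (fun _ => hg) h
    have hfne : a f ≠ b f := by
      intro h
      exact (hmem f).2 (Or.inl rfl) (by rw [h])
    let ρ : W → W := fun w => if w = b f then a f else w
    have hρ : ∀ (M : Finset E) (Y : Finset W), cn (fun e => ρ (a e)) (fun e => ρ (b e)) M Y =
        cn a b M (univ.filter (fun w => ρ w ∈ Y)) := by
      intro M Y
      unfold cn
      congr 1
      apply Finset.filter_congr
      intro e _
      simp
    have hlt : (univ.filter (fun e => ρ (a e) ≠ ρ (b e))).card < n := by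
      rw [← hn]
      apply Finset.card_lt_card
      rw [Finset.ssubset_iff_of_subset]
      · refine ⟨f, ?_, ?_⟩
        · rw [Finset.mem_filter]; exact ⟨Finset.mem_univ _, hfne⟩
        · rw [Finset.mem_filter]
          rintro ⟨_, h⟩
          apply h
          simp [ρ, hfne]
      · intro e he
        rw [Finset.mem_filter] at he ⊢
        refine ⟨Finset.mem_univ _, fun h => he.2 (by rw [h])⟩
    obtain ⟨φ, hnz, hf, hc⟩ := ih _ hlt (fun e => ρ (a e)) (fun e => ρ (b e)) (ρ c) rfl (by
      intro Y; rw [hρ]; exact h13 _)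
    have hc' : ∀ e, At a b c e → φ 2 e = 0 := by
      intro e he
      apply hc
      rcases he with h | h
      · left; show ρ (a e) = ρ c; rw [h]
      · right; show ρ (b e) = ρ c; rw [h]
    have key : ∀ φ : E → F2, IsFlow (fun e => ρ (a e)) (fun e => ρ (b e)) φ →
        ∃ ψ : E → F2, IsFlow a b ψ ∧ (∀ e, e ≠ f → ψ e = φ e) ∧ ψ f = φ g := by
      intro φ hφ
      let δ : W → F2 := fun w => if w = b f then 1 else 0
      let l : F2 := ∑ e ∈ univ.erase f, φ e * (δ (a e) + δ (b e))
      let ψ : E → F2 := fun e => if e = f then l else φ e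
      have hψf : ψ f = l := if_pos rfl
      have hψne : ∀ e, e ≠ f → ψ e = φ e := fun e he => if_neg he
      have hflow : IsFlow a b ψ := by
        intro c
        let c' : W → F2 := fun w => c (ρ w)
        have hcc : ∀ w, c w = c' w + (c (a f) + c (b f)) * δ w := by
          intro w
          by_cases hw : w = b f
          · simp only [c', ρ, δ, hw, if_true, mul_one]
            rw [← add_assoc, f2_add_self, zero_add]
          · simp only [c', ρ, δ, hw, if_false, mul_zero, add_zero]
        have h1 : ∑ e, ψ e * (c (a e) + c (b e)) =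
            ∑ e, ψ e * (c' (a e) + c' (b e)) +
              (c (a f) + c (b f)) * ∑ e, ψ e * (δ (a e) + δ (b e)) := by
          rw [Finset.mul_sum, ← Finset.sum_add_distrib]
          apply Finset.sum_congr rfl
          intro e _
          rw [hcc (a e), hcc (b e)]
          ring
        have h2 : ∑ e, ψ e * (c' (a e) + c' (b e)) = 0 := by
          have h3 := hφ c
          rw [← h3]
          apply Finset.sum_congr rfl
          intro e _
          by_cases he : e = f
          · rw [he]
            have h4 : c' (a f) + c' (b f) = 0 := by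
              simp only [c', ρ, hfne, if_false, if_true]
              exact f2_add_self _
            have h5 : c (ρ (a f)) + c (ρ (b f)) = 0 := h4
            rw [h4, mul_zero, mul_zero]
          · rw [hψne e he]
        have h3 : ∑ e, ψ e * (δ (a e) + δ (b e)) = 0 := by
          rw [← Finset.add_sum_erase univ _ (Finset.mem_univ f), hψf]
          have h4 : ∑ e ∈ univ.erase f, ψ e * (δ (a e) + δ (b e)) = l := by
            apply Finset.sum_congr rfl
            intro e he
            rw [hψne e (Finset.ne_of_mem_erase he)]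
          rw [h4]
          have h5 : δ (a f) + δ (b f) = 1 := by simp [δ, hfne]
          rw [h5, mul_one]
          exact f2_add_self _
        rw [h1, h2, h3, mul_zero, add_zero]
      refine ⟨ψ, hflow, hψne, ?_⟩
      -- the two edges of the cut carry the same value
      have h1 := hflow (fun w => if w ∈ X then 1 else 0)
      have h2 : ∀ e ∈ (univ : Finset E), ψ e * ((if a e ∈ X then (1 : F2) else 0) +
          (if b e ∈ X then 1 else 0)) = if (e = f ∨ e = g) then ψ e else 0 := by
        intro e _
        by_cases he : (e = f ∨ e = g)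
        · rw [if_pos he]
          have := (hmem e).2 he
          by_cases h3 : a e ∈ X
          · have h4 : b e ∉ X := fun h4 => this ⟨fun _ => h4, fun _ => h3⟩
            simp [h3, h4]
          · have h4 : b e ∈ X := by
              by_contra h4; exact this ⟨fun h => absurd h h3, fun h => absurd h h4⟩
            simp [h3, h4]
        · rw [if_neg he]
          have := not_not.1 (fun h => he ((hmem e).1 h))
          by_cases h3 : a e ∈ X
          · have h4 := this.1 h3
            simp only [h3, h4, if_true]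
            rw [f2_add_self, mul_zero]
          · have h4 : b e ∉ X := fun h => h3 (this.2 h)
            simp [h3, h4]
      rw [Finset.sum_congr rfl h2, ← Finset.sum_filter] at h1
      have h3 : univ.filter (fun e => e = f ∨ e = g) = {f, g} := by
        ext e; simp
      rw [h3, Finset.sum_pair hfg, hψne g (Ne.symm hfg)] at h1
      calc ψ f = ψ f + (φ g + φ g) := by rw [f2_add_self, add_zero]
        _ = (ψ f + φ g) + φ g := by ring
        _ = φ g := by rw [h1, zero_add]
    choose ψ k1 k2 k3 using fun i => key (φ i) (hf i)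
    refine ⟨ψ, ?_, k1, ?_⟩
    · intro e
      by_cases he : e = f
      · rw [he, k3, k3, k3]; exact hnz g
      · rw [k2 0 e he, k2 1 e he, k2 2 e he]; exact hnz e
    · intro e he
      by_cases hef : e = f
      · rw [hef, k3]
        rw [hef] at he
        exact hc' g (hfc he)
      · rw [k2 2 e hef]
        exact hc' e he

end Pool.Agent.W157.SCZ
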