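import Pool.Agent.W157.SCZ.CoverZ
import Pool.Agent.W157.SCZ.FlowD

set_option autoImplicit false
set_option linter.unusedSectionVars false

/-!
Every circuit C of a graph without bridges is one of five even subgraphs that cover every edge
exactly twice, except for some edges of an even subgraph Z that is vertex-disjoint from C.
-/

open Finset

namespace Pool.Agent.W157.SCZ

open Pool.Agent.H164R2
open Pool.Agent.Helper347.Sab
open Pool.Agent.Results.MP_e720fa_co.ColourableComplement (circ_complete)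
open Pool.Agent.Helper998.Near (even_iff_cast)
open Pool.Agent.Helper879.ECD (IsFlow cn f2_add_self)

variable {V E : Type} [Fintype V] [DecidableEq V] [Fintype E] [DecidableEq E]

/-- degree parity as a sum over the edges -/
theorem dg_cast (G : MGraph V E) (X : Finset E) (v : V) :
    ((dg G X v : ℕ) : ZMod 2) = ∑ e, if v ∈ G.ends e then (if e ∈ X then 1 else 0) else 0 := by
  unfold dg
  have h1 : (X.filter fun e => v ∈ G.ends e) = univ.filter fun e => v ∈ G.ends e ∧ e ∈ X := by
    ext e; simp [and_comm]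
  rw [h1, card_filter, Nat.cast_sum]
  refine sum_congr rfl fun e _ => ?_
  by_cases h2 : v ∈ G.ends e <;> by_cases h3 : e ∈ X <;> simp [h2, h3]

/-- an even set meets every cut in an even number of edges -/
theorem ev_cut (G : MGraph V E) (al be : E → V) (hab : ∀ e, al e ≠ be e)
    (hends : ∀ e, G.ends e = s(al e, be e)) (Y : Finset E) (hY : Ev G Y) (X : Finset V) :
    ((cn al be Y X : ℕ) : ZMod 2) = 0 := by
  have h1 : ∀ v ∈ X, ((dg G Y v : ℕ) : ZMod 2) = 0 := fun v _ =>
    (even_iff_cast _).1 (hY v)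
  have h2 : ∑ v ∈ X, ((dg G Y v : ℕ) : ZMod 2) = 0 := sum_eq_zero h1
  rw [← h2]
  simp only [dg_cast]
  rw [sum_comm]
  unfold cn
  rw [card_filter, Nat.cast_sum]
  have h3 : ∑ e ∈ Y, (((if ¬ (al e ∈ X ↔ be e ∈ X) then 1 else 0 : ℕ)) : ZMod 2) =
      ∑ e, if e ∈ Y then (if ¬ (al e ∈ X ↔ be e ∈ X) then (1 : ZMod 2) else 0) else 0 := by
    rw [← sum_filter]
    have h5 : (univ.filter fun e => e ∈ Y) = Y := by ext e; simp
    rw [h5]
    refine sum_congr rfl fun e _ => ?_
    split_ifs <;> simp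
  rw [h3]
  refine sum_congr rfl fun e _ => ?_
  by_cases heY : e ∈ Y
  · simp only [if_pos heY]
    have h4 : ∀ v, (if v ∈ G.ends e then (1 : ZMod 2) else 0) =
        (if v = al e then 1 else 0) + (if v = be e then 1 else 0) := by
      intro v
      have hm : v ∈ G.ends e ↔ v = al e ∨ v = be e := by rw [hends e, Sym2.mem_iff]
      by_cases h5 : v = al e
      · have h6 : v ≠ be e := fun h => hab e (h5.symm.trans h)
        rw [if_pos (hm.2 (Or.inl h5)), if_pos h5, if_neg h6, add_zero]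
      · by_cases h6 : v = be e
        · rw [if_pos (hm.2 (Or.inr h6)), if_neg h5, if_pos h6, zero_add]
        · rw [if_neg (fun h => (hm.1 h).elim h5 h6), if_neg h5, if_neg h6, add_zero]
    simp only [h4]
    rw [sum_add_distrib, sum_ite_eq', sum_ite_eq']
    by_cases h5 : al e ∈ X <;> by_cases h6 : be e ∈ X <;> simp [h5, h6]
    decide
  · simp [heY]

/-- the eight-flow theorem at a circuit: even sets A, B and Z that cover all edges off C,
with Z vertex-disjoint from C -/
theorem three_sets (G : MGraph V E) (C : Finset E) (hC : IsCircuit G C)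
    (hb : ∀ e, ∃ X, Ev G X ∧ e ∈ X) :
    ∃ A B Z : Finset E, Ev G A ∧ Ev G B ∧ Ev G Z ∧ (∀ v, dg G C v ≠ 0 → dg G Z v = 0) ∧
      ∀ e, e ∉ C → e ∉ Z → e ∈ A ∨ e ∈ B := by
  classical
  have hends' : ∀ e, ∃ u v, u ≠ v ∧ G.ends e = s(u, v) := fun e => exists_ends G e
  choose al be hab hends using hends'
  obtain ⟨e0, he0⟩ := hC.1
  have hp0m : al e0 ∈ G.ends e0 := by rw [hends e0]; simp
  obtain ⟨p0, hp0⟩ : ∃ p0, dg G C p0 = 2 := ⟨al e0, (hC.2.1 _).resolve_left (by
    have := dg_pos_of_mem (G := G) he0 hp0m; omega)⟩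
  let κ : V → V := fun v => if dg G C v = 2 then p0 else v
  have hκ2 : ∀ v, dg G C v = 2 → κ v = p0 := fun v hv => by simp [κ, hv]
  have hκv : ∀ u v, dg G C v = 0 → (κ u = v ↔ u = v) := by
    intro u v hv
    by_cases hu : dg G C u = 2
    · rw [hκ2 u hu]
      constructor
      · intro h; rw [h] at hp0; omega
      · intro h; rw [h] at hu; omega
    · simp only [κ, if_neg hu]
  have hcut : ∀ X : Finset V, cn (fun e => κ (al e)) (fun e => κ (be e)) univ X ≠ 1 := by
    intro X h
    have h1 : cn (fun e => κ (al e)) (fun e => κ (be e)) univ X =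
        cn al be univ (univ.filter (fun w => κ w ∈ X)) := by
      unfold cn
      congr 1
      apply Finset.filter_congr
      intro e _
      simp
    rw [h1] at h
    unfold cn at h
    obtain ⟨e, he⟩ := Finset.card_eq_one.1 h
    obtain ⟨Y, hY, heY⟩ := hb e
    have h2 := ev_cut G al be hab hends Y hY (univ.filter (fun w => κ w ∈ X))
    have h3 : cn al be Y (univ.filter (fun w => κ w ∈ X)) = 1 := by
      unfold cn
      rw [Finset.card_eq_one]
      refine ⟨e, ?_⟩
      ext f
      have h4 : f ∈ univ.filter (fun e => ¬ (al e ∈ univ.filter (fun w => κ w ∈ X) ↔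
          be e ∈ univ.filter (fun w => κ w ∈ X))) ↔ f ∈ ({e} : Finset E) := by rw [he]
      rw [mem_filter] at h4 ⊢
      constructor
      · rintro ⟨_, h5⟩
        exact h4.1 ⟨mem_univ _, h5⟩
      · intro h5
        refine ⟨?_, (h4.2 h5).2⟩
        rw [mem_singleton.1 h5]
        exact heY
    rw [h3] at h2
    exact absurd h2 (by decide)
  obtain ⟨ψ, hnz, hfl, hz2⟩ := exists_flowC _ (fun e => κ (al e)) (fun e => κ (be e)) p0 rfl hcut
  -- flow condition at the vertices off C
  have hvert : ∀ (i : Fin 3) (v : V), dg G C v = 0 →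
      ∑ e, (if v ∈ G.ends e then ψ i e else 0) = 0 := by
    intro i v hv
    have h1 := hfl i (fun u => if u = v then 1 else 0)
    refine Eq.trans ?_ h1
    refine sum_congr rfl fun e _ => ?_
    have hm : v ∈ G.ends e ↔ v = al e ∨ v = be e := by rw [hends e, Sym2.mem_iff]
    simp only [hκv _ v hv]
    by_cases h5 : v = al e
    · have h6 : ¬ be e = v := fun h => hab e (h5.symm.trans h.symm)
      rw [if_pos (hm.2 (Or.inl h5)), if_pos h5.symm, if_neg h6, add_zero, mul_one]
    · by_cases h6 : v = be e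
      · rw [if_pos (hm.2 (Or.inr h6)), if_neg (fun h => h5 h.symm), if_pos h6.symm, zero_add,
          mul_one]
      · rw [if_neg (fun h => (hm.1 h).elim h5 h6), if_neg (fun h => h5 h.symm),
          if_neg (fun h => h6 h.symm), add_zero, mul_zero]
  -- ψ 2 vanishes at all edges with an end on C
  have hon : ∀ e v, v ∈ G.ends e → dg G C v = 2 → ψ 2 e = 0 := by
    intro e v hv h2
    apply hz2 e
    rw [hends e, Sym2.mem_iff] at hv
    rcases hv with h | h
    · left; show κ (al e) = p0; rw [← h]; exact hκ2 v h2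
    · right; show κ (be e) = p0; rw [← h]; exact hκ2 v h2
  obtain ⟨Z, hZ⟩ : ∃ F : Finset E, ∀ e, e ∈ F ↔ ψ 2 e ≠ 0 :=
    ⟨univ.filter (fun e => ψ 2 e ≠ 0), by intro e; simp⟩
  have hZ0 : ∀ v, dg G C v ≠ 0 → dg G Z v = 0 := by
    intro v hv
    have h := (hC.2.1 v).resolve_left hv
    unfold dg
    rw [card_eq_zero, filter_eq_empty_iff]
    intro e he hv
    exact (hZ e).1 he (hon e v hv h)
  have hZe : Ev G Z := by
    intro v
    rcases hC.2.1 v with h | h
    · rw [even_iff_cast, dg_cast]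
      refine Eq.trans ?_ (hvert 2 v h)
      refine sum_congr rfl fun e _ => ?_
      by_cases h2 : v ∈ G.ends e
      · rw [if_pos h2, if_pos h2]
        rcases z2_cases (ψ 2 e) with h3 | h3
        · rw [if_neg (fun h4 => (hZ e).1 h4 h3), h3]
        · rw [if_pos ((hZ e).2 (by rw [h3]; decide)), h3]
      · rw [if_neg h2, if_neg h2]
    · rw [hZ0 v (by omega)]
      exact ⟨0, rfl⟩
  have hnotC : ∀ v, dg G C v = 0 → ∀ e, v ∈ G.ends e → e ∉ C := by
    intro v hv e he h
    have := dg_pos_of_mem (G := G) h he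
    omega
  have hpart : ∀ i : Fin 3, ∃ A : Finset E, Ev G A ∧ ∀ f, f ∉ C → (f ∈ A ↔ ψ i f ≠ 0) := by
    intro i
    obtain ⟨M, hM⟩ : ∃ M : Finset E, ∀ f, f ∈ M ↔ f ∉ C ∧ ψ i f ≠ 0 :=
      ⟨univ.filter (fun f => f ∉ C ∧ ψ i f ≠ 0), by intro e; simp⟩
    obtain ⟨J, hJC, hJ⟩ := circ_complete G C M hC (by
      rw [disjoint_left]
      intro e he h
      exact ((hM e).1 h).1 he) (by
      intro v hv
      rw [even_iff_cast, dg_cast]
      refine Eq.trans ?_ (hvert i v hv)
      refine sum_congr rfl fun e _ => ?_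
      by_cases h2 : v ∈ G.ends e
      · rw [if_pos h2, if_pos h2]
        have heC := hnotC v hv e h2
        rcases z2_cases (ψ i e) with h3 | h3
        · rw [if_neg (fun h4 => ((hM e).1 h4).2 h3), h3]
        · rw [if_pos ((hM e).2 ⟨heC, by rw [h3]; decide⟩), h3]
      · rw [if_neg h2, if_neg h2])
    refine ⟨M ∪ J, hJ, fun f hf => ?_⟩
    rw [mem_union, hM]
    constructor
    · rintro (h | h)
      · exact h.2
      · exact absurd (hJC h) hf
    · intro h
      exact Or.inl ⟨hf, h⟩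
  obtain ⟨A, hA, hA'⟩ := hpart 0
  obtain ⟨B, hB, hB'⟩ := hpart 1
  refine ⟨A, B, Z, hA, hB, hZe, hZ0, ?_⟩
  intro f hf hfZ
  rcases hnz f with h | h | h
  · exact Or.inl ((hA' f hf).2 h)
  · exact Or.inr ((hB' f hf).2 h)
  · exact absurd ((hZ f).2 h) hfZ

/-- The main theorem. -/
theorem main (G : MGraph V E) (hb : ∀ e, ∃ X, IsCircuit G X ∧ e ∈ X)
    (C : Finset E) (hC : IsCircuit G C) :
    ∃ (Z N : Finset E) (Q : Fin 4 → Finset E),
      (∀ v, Even (dg G Z v)) ∧ (∀ v, dg G C v ≠ 0 → dg G Z v = 0) ∧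
      N ⊆ Z ∧ (∀ v, dg G univ v = 3 → dg G N v ≤ 1) ∧
      (∀ D, D ⊆ Z → (∀ v, Even (dg G D v)) → 4 * (N ∩ D).card ≤ D.card) ∧
      (∀ i v, Even (dg G (Q i) v)) ∧
      (∀ e, e ∉ N → (if e ∈ C then 1 else 0) + (univ.filter fun i => e ∈ Q i).card = 2) ∧
      (∀ e ∈ N, ∀ i, e ∉ Q i) := by
  classical
  obtain ⟨A0, B0, Z, hA0, hB0, hZ, hZC, hcov0⟩ := three_sets G C hC (by
    intro e
    obtain ⟨X, hX, he⟩ := hb e
    exact ⟨X, fun v => by rcases hX.2.1 v with h | h <;> rw [h] <;> decide, he⟩)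
  have hZCd : Disjoint Z C := by
    rw [disjoint_left]
    intro e he heC
    obtain ⟨a, b, _, hends⟩ := exists_ends G e
    have ha : a ∈ G.ends e := by rw [hends]; simp
    have h1 := dg_pos_of_mem (G := G) he ha
    have h2 := dg_pos_of_mem (G := G) heC ha
    have h3 := hZC a (by omega)
    omega
  -- optimal pair
  let good : Finset E × Finset E → Prop := fun p => Ev G p.1 ∧ Ev G p.2 ∧
    ∀ e, e ∉ C → e ∉ Z → e ∈ p.1 ∨ e ∈ p.2
  have hne : (univ.filter good).Nonempty :=
    ⟨(A0, B0), mem_filter.2 ⟨mem_univ _, hA0, hB0, hcov0⟩⟩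
  obtain ⟨⟨A, B⟩, hp, hmin⟩ := exists_min_image (univ.filter good)
    (fun p => (Z \ (p.1 ∪ p.2)).card) hne
  obtain ⟨hA, hB, hcov⟩ := (mem_filter.1 hp).2
  have hmin' : ∀ A' B' : Finset E, Ev G A' → Ev G B' →
      (∀ e, e ∉ C → e ∉ Z → e ∈ A' ∨ e ∈ B') → (Z \ (A ∪ B)).card ≤ (Z \ (A' ∪ B')).card :=
    fun A' B' h1 h2 h3 => hmin (A', B') (mem_filter.2 ⟨mem_univ _, h1, h2, h3⟩)
  obtain ⟨N, hN⟩ : ∃ N : Finset E, N = Z \ (A ∪ B) := ⟨_, rfl⟩
  have hNm : ∀ e, e ∈ N ↔ e ∈ Z ∧ e ∉ A ∧ e ∉ B := by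
    intro e
    rw [hN, mem_sdiff, mem_union, not_or]
  have hNZ : N ⊆ Z := fun e he => ((hNm e).1 he).1
  have hquarter : ∀ D, D ⊆ Z → Ev G D → 4 * (N ∩ D).card ≤ D.card := by
    intro D hDZ hD
    have hsd : ∀ (X : Finset E) (e : E), e ∉ Z → (e ∈ symmDiff X D ↔ e ∈ X) := by
      intro X e he
      have : e ∉ D := fun h => he (hDZ h)
      rw [mem_symmDiff]
      tauto
    have h1 := hmin' (symmDiff A D) B (ev_symmDiff hA hD) hB (by
      intro e h1 h2
      rw [hsd A e h2]
      exact hcov e h1 h2)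
    have h2 := hmin' A (symmDiff B D) hA (ev_symmDiff hB hD) (by
      intro e h1 h2
      rw [hsd B e h2]
      exact hcov e h1 h2)
    have h3 := hmin' (symmDiff A D) (symmDiff B D) (ev_symmDiff hA hD) (ev_symmDiff hB hD) (by
      intro e h1 h2
      rw [hsd A e h2, hsd B e h2]
      exact hcov e h1 h2)
    rw [← hN] at h1 h2 h3
    have k0 : N.card = (N \ D).card + (N ∩ D).card := (card_sdiff_add_card_inter N D).symm
    have kk : ∀ (Y W : Finset E), Y ⊆ (N \ D) ∪ W → Y.card ≤ (N \ D).card + W.card :=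
      fun Y W h => (card_le_card h).trans (card_union_le _ _)
    have k1 := kk (Z \ (symmDiff A D ∪ B)) (D.filter fun e => e ∈ A ∧ e ∉ B) (by
      intro e he
      rw [mem_sdiff, mem_union, mem_symmDiff] at he
      rw [mem_union, mem_sdiff, hNm, mem_filter]
      tauto)
    have k2 := kk (Z \ (A ∪ symmDiff B D)) (D.filter fun e => e ∉ A ∧ e ∈ B) (by
      intro e he
      rw [mem_sdiff, mem_union, mem_symmDiff] at he
      rw [mem_union, mem_sdiff, hNm, mem_filter]
      tauto)
    have k3 := kk (Z \ (symmDiff A D ∪ symmDiff B D)) (D.filter fun e => e ∈ A ∧ e ∈ B) (by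
      intro e he
      rw [mem_sdiff, mem_union, mem_symmDiff, mem_symmDiff] at he
      rw [mem_union, mem_sdiff, hNm, mem_filter]
      tauto)
    have k4 : (N ∩ D).card + (D.filter fun e => e ∈ A ∧ e ∉ B).card +
        (D.filter fun e => e ∉ A ∧ e ∈ B).card + (D.filter fun e => e ∈ A ∧ e ∈ B).card ≤
        D.card := by
      have e1 : (N ∩ D).card = ∑ e ∈ D, if e ∉ A ∧ e ∉ B then 1 else 0 := by
        rw [← card_filter]
        congr 1
        ext e
        rw [mem_inter, hNm, mem_filter]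
        constructor
        · rintro ⟨h4, h5⟩
          exact ⟨h5, h4.2⟩
        · rintro ⟨h4, h5⟩
          exact ⟨⟨hDZ h4, h5⟩, h4⟩
      rw [e1, card_filter, card_filter, card_filter, ← sum_add_distrib, ← sum_add_distrib,
        ← sum_add_distrib, card_eq_sum_ones]
      refine sum_le_sum fun e _ => ?_
      by_cases h4 : e ∈ A <;> by_cases h5 : e ∈ B <;> simp [h4, h5]
    omega
  have hmatch : ∀ v, dg G univ v = 3 → dg G N v ≤ 1 := by
    intro v h5
    by_contra hcon
    push Not at hcon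
    have h1 := dg_mono (G := G) hNZ v
    have h2 := hZ v
    have h3 := dg_sdiff (G := G) (subset_univ Z) v
    have h4 := dg_sdiff (G := G) (subset_univ N) v
    rw [Nat.even_iff] at h2
    have h6 : dg G C v = 0 := by
      by_contra h
      have := hZC v h
      omega
    have h7 : 0 < dg G (univ \ Z) v := by omega
    unfold dg at h7
    rw [card_pos] at h7
    obtain ⟨f, hf⟩ := h7
    rw [mem_filter, mem_sdiff] at hf
    have hfC : f ∉ C := by
      intro h
      have := dg_pos_of_mem (G := G) h hf.2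
      omega
    have key : ∀ X : Finset E, Ev G X → Disjoint X N → f ∉ X := by
      intro X hX hXN hfX
      have a1 := dg_mono (G := G) (show X ⊆ univ \ N by
        intro e he
        rw [mem_sdiff]
        exact ⟨mem_univ _, disjoint_left.1 hXN he⟩) v
      have a2 := dg_pos_of_mem (G := G) hfX hf.2
      have a3 := hX v
      rw [Nat.even_iff] at a3
      omega
    rcases hcov f hfC hf.1.2 with h | h
    · exact key A hA (by
        rw [disjoint_left]
        intro e he h'
        exact ((hNm e).1 h').2.1 he) h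
    · exact key B hB (by
        rw [disjoint_left]
        intro e he h'
        exact ((hNm e).1 h').2.2 he) h
  have hNC : ∀ e ∈ N, e ∉ C := fun e he => disjoint_left.1 hZCd (hNZ he)
  obtain ⟨Q, f1, f2⟩ := strong_circuitH G (univ \ N) C (by
    intro e he
    exact mem_sdiff.2 ⟨mem_univ _, fun h => hNC e h he⟩) hC A B hA hB (by
    intro e he
    exact mem_sdiff.2 ⟨mem_univ _, fun h => ((hNm e).1 h).2.1 he⟩) (by
    intro e he
    exact mem_sdiff.2 ⟨mem_univ _, fun h => ((hNm e).1 h).2.2 he⟩) (by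
    intro e he heC
    have heN := (mem_sdiff.1 he).2
    by_cases heZ : e ∈ Z
    · by_contra h
      rw [not_or] at h
      exact heN ((hNm e).2 ⟨heZ, h⟩)
    · exact hcov e heC heZ)
  refine ⟨Z, N, Q, hZ, hZC, hNZ, hmatch, hquarter, f1, ?_, ?_⟩
  · intro e he
    rw [f2 e, if_pos (mem_sdiff.2 ⟨mem_univ _, he⟩)]
  · intro e he i hi
    have h1 := f2 e
    rw [if_neg (hNC e he), if_neg (fun h => (mem_sdiff.1 h).2 he), zero_add, card_eq_zero,
      filter_eq_empty_iff] at h1
    exact h1 (mem_univ i) hi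

end Pool.Agent.W157.SCZ
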