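import Pool.Agent.W157.SCZ.PackF
import Pool.Agent.Helper879.ECD.Flow

set_option autoImplicit false
set_option linter.unusedSectionVars false
set_option linter.unusedSimpArgs false

/-!
Jaeger's eight-flow theorem with the third coordinate vanishing at a prescribed vertex `c`.
-/

namespace Pool.Agent.W157.SCZ

open Finset
open Pool.Agent.Helper879.ECD (sp Ind sp_mono mem_sp mem_sp_exch sp_exch F2 IsFlow inc fnl
  fnl_single fnl_inc cn f2_add_self exists_coeff)

section Flow

variable {W E : Type} [Fintype W] [DecidableEq W] [Fintype E] [DecidableEq E]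

/-- the edge `e` has an end at `c` -/
abbrev At (a b : E → W) (c : W) (e : E) : Prop := a e = c ∨ b e = c

open Classical in
/-- rank condition for two spanning trees of the graph and one of the graph without `c` -/
lemma rankC (a b : E → W) (c : W)
    (h4 : ∀ X : Finset W, cn a b univ X = 0 ∨ 3 ≤ cn a b univ X)
    (S1 S3 : Submodule F2 (W → F2)) (h31 : S3 ≤ S1) :
    2 * Module.finrank F2 (sp F2 (inc a b) univ) +
      Module.finrank F2 (sp F2 (inc a b) (univ.filter (fun e => ¬ At a b c e))) ≤
      2 * Module.finrank F2 S1 + Module.finrank F2 S3 +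
        (2 * ((univ.filter (fun e => ¬ At a b c e)).filter (fun e => ¬ inc a b e ∈ S3)).card +
          ((univ.filter (fun e => At a b c e)).filter (fun e => ¬ inc a b e ∈ S1)).card) := by
  obtain ⟨M, hM⟩ : ∃ M : Finset E, M = univ.filter (fun e => ¬ At a b c e) := ⟨_, rfl⟩
  obtain ⟨N, hN⟩ : ∃ N : Finset E, N = univ.filter (fun e => At a b c e) := ⟨_, rfl⟩
  rw [← hM, ← hN]
  have hMN : ∀ X, cn a b univ X = cn a b M X + cn a b N X := by
    intro X
    unfold cn
    rw [hM, hN, Finset.filter_filter, Finset.filter_filter,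
      ← Finset.card_filter_add_card_filter_not (s := univ.filter (fun e => ¬ (a e ∈ X ↔ b e ∈ X)))
        (fun e => ¬ At a b c e), Finset.filter_filter, Finset.filter_filter]
    congr 2
    · ext e; simp only [Finset.mem_filter, Finset.mem_univ, true_and]; tauto
    · ext e; simp only [Finset.mem_filter, Finset.mem_univ, true_and]; tauto
  let r : W → W → Prop := fun w v => (Pi.single w 1 + Pi.single v 1 : W → F2) ∈ S3
  let q : W → W → Prop := fun w v => (Pi.single w 1 + Pi.single v 1 : W → F2) ∈ S1
  have hself : ∀ u : W → F2, u + u = 0 := by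
    intro u; ext w; exact f2_add_self _
  have grefl : ∀ (S : Submodule F2 (W → F2)) (w : W),
      (Pi.single w 1 + Pi.single w 1 : W → F2) ∈ S := by
    intro S w
    rw [hself]; exact S.zero_mem
  have gsymm : ∀ (S : Submodule F2 (W → F2)) (w v : W),
      (Pi.single w 1 + Pi.single v 1 : W → F2) ∈ S →
      (Pi.single v 1 + Pi.single w 1 : W → F2) ∈ S := by
    intro S w v h
    rw [add_comm]; exact h
  have gtrans : ∀ (S : Submodule F2 (W → F2)) (u v w : W),
      (Pi.single u 1 + Pi.single v 1 : W → F2) ∈ S →
      (Pi.single v 1 + Pi.single w 1 : W → F2) ∈ S →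
      (Pi.single u 1 + Pi.single w 1 : W → F2) ∈ S := by
    intro S u v w h1 h2
    have h3 := S.add_mem h1 h2
    have h4 : (Pi.single u 1 + Pi.single v 1 : W → F2) + (Pi.single v 1 + Pi.single w 1) =
        Pi.single u 1 + Pi.single w 1 := by
      rw [show (Pi.single u 1 + Pi.single v 1 : W → F2) + (Pi.single v 1 + Pi.single w 1) =
        Pi.single u 1 + (Pi.single v 1 + Pi.single v 1) + Pi.single w 1 by abel, hself, add_zero]
    rw [h4] at h3
    exact h3
  have hr_refl : ∀ w, r w w := grefl S3
  have hr_symm : ∀ w v, r w v → r v w := gsymm S3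
  have hr_trans : ∀ u v w, r u v → r v w → r u w := gtrans S3
  have hq_refl : ∀ w, q w w := grefl S1
  have hq_symm : ∀ w v, q w v → q v w := gsymm S1
  have hq_trans : ∀ u v w, q u v → q v w → q u w := gtrans S1
  have hrq : ∀ w v, r w v → q w v := fun w v h => h31 h
  let cls : W → Finset W := fun w => univ.filter (fun v => r w v)
  have hcls : ∀ w v, v ∈ cls w ↔ r w v := by intro w v; simp [cls]
  have hcls_eq : ∀ w v, r w v → cls w = cls v := by
    intro w v h
    ext u
    rw [hcls, hcls]
    exact ⟨fun h' => hr_trans _ _ _ (hr_symm _ _ h) h', fun h' => hr_trans _ _ _ h h'⟩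
  let P : Finset (Finset W) := univ.image cls
  have hPmem : ∀ w, cls w ∈ P := fun w => Finset.mem_image_of_mem _ (Finset.mem_univ _)
  have hPuniq : ∀ X ∈ P, ∀ w ∈ X, X = cls w := by
    intro X hX w hw
    obtain ⟨v, _, rfl⟩ := Finset.mem_image.1 hX
    exact hcls_eq _ _ ((hcls _ _).1 hw)
  let far : Finset W → Prop := fun X => ∀ w ∈ X, ¬ q w c
  let P1 : Finset (Finset W) := P.filter (fun X => far X ∧ cn a b univ X ≠ 0)
  let P3 : Finset (Finset W) := P.filter (fun X => cn a b M X ≠ 0)
  have hE : ∀ e, inc a b e ∈ S3 ↔ r (a e) (b e) := fun e => Iff.rfl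
  have hE1 : ∀ e, inc a b e ∈ S1 ↔ q (a e) (b e) := fun e => Iff.rfl
  -- counting
  have hcount : ∑ X ∈ P, cn a b M X = 2 * (M.filter (fun e => ¬ inc a b e ∈ S3)).card := by
    simp only [cn, Finset.card_filter, Finset.mul_sum]
    rw [Finset.sum_comm]
    apply Finset.sum_congr rfl
    intro e _
    by_cases h : inc a b e ∈ S3
    · have h1 : ∀ X ∈ P, (if ¬ (a e ∈ X ↔ b e ∈ X) then 1 else 0) = 0 := by
        intro X hX
        rw [if_neg]
        rw [not_not]
        constructor
        · intro h2
          rw [hPuniq X hX _ h2, hcls]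
          exact (hE e).1 h
        · intro h2
          rw [hPuniq X hX _ h2, hcls]
          exact hr_symm _ _ ((hE e).1 h)
      rw [Finset.sum_congr rfl h1]
      simp [h]
    · have hne : cls (a e) ≠ cls (b e) := by
        intro h2
        apply h
        rw [hE]
        have : b e ∈ cls (b e) := (hcls _ _).2 (hr_refl _)
        rw [← h2, hcls] at this
        exact this
      have h1 : ∀ X ∈ P, (if ¬ (a e ∈ X ↔ b e ∈ X) then 1 else 0) =
          (if X = cls (a e) then 1 else 0) + (if X = cls (b e) then 1 else 0) := by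
        intro X hX
        have ha : a e ∈ X ↔ X = cls (a e) :=
          ⟨fun h2 => hPuniq X hX _ h2, fun h2 => by rw [h2, hcls]; exact hr_refl _⟩
        have hb : b e ∈ X ↔ X = cls (b e) :=
          ⟨fun h2 => hPuniq X hX _ h2, fun h2 => by rw [h2, hcls]; exact hr_refl _⟩
        by_cases h2 : X = cls (a e)
        · have h3 : ¬ X = cls (b e) := fun h3 => hne (h2.symm.trans h3)
          rw [if_pos, if_pos h2, if_neg h3]
          intro h4
          exact h3 (hb.1 (h4.1 (ha.2 h2)))
        · by_cases h3 : X = cls (b e)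
          · rw [if_pos, if_neg h2, if_pos h3]
            intro h4
            exact h2 (ha.1 (h4.2 (hb.2 h3)))
          · rw [if_neg, if_neg h2, if_neg h3]
            rw [not_not]
            exact ⟨fun h4 => absurd (ha.1 h4) h2, fun h4 => absurd (hb.1 h4) h3⟩
      rw [Finset.sum_congr rfl h1, Finset.sum_add_distrib]
      simp [h, hPmem]
  have hcountN : ∑ X ∈ P, (if far X then cn a b N X else 0) =
      (N.filter (fun e => ¬ inc a b e ∈ S1)).card := by
    rw [← Finset.sum_filter]
    simp only [cn, Finset.card_filter]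
    rw [Finset.sum_comm]
    apply Finset.sum_congr rfl
    intro e he
    have hat : At a b c e := by
      rw [hN, Finset.mem_filter] at he; exact he.2
    -- the other end
    obtain ⟨v, hv⟩ : ∃ v, (a e = c ∧ b e = v) ∨ (a e = v ∧ b e = c) := by
      rcases hat with h | h
      · exact ⟨b e, Or.inl ⟨h, rfl⟩⟩
      · exact ⟨a e, Or.inr ⟨rfl, h⟩⟩
    have hcross : ∀ X : Finset W, ¬ (a e ∈ X ↔ b e ∈ X) ↔ ¬ (v ∈ X ↔ c ∈ X) := by
      intro X
      rcases hv with ⟨h1, h2⟩ | ⟨h1, h2⟩ <;> rw [h1, h2]
      tauto
    have hS1 : inc a b e ∈ S1 ↔ q v c := by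
      rw [hE1]
      rcases hv with ⟨h1, h2⟩ | ⟨h1, h2⟩ <;> rw [h1, h2]
      exact ⟨hq_symm _ _, hq_symm _ _⟩
    simp only [hcross, hS1]
    by_cases h : q v c
    · rw [if_neg (by rw [not_not]; exact h)]
      apply Finset.sum_eq_zero
      intro X hX
      rw [Finset.mem_filter] at hX
      rw [if_neg]
      rw [not_not]
      constructor
      · intro h2
        exact absurd h (hX.2 v h2)
      · intro h2
        exact absurd (hq_refl c) (hX.2 c h2)
    · rw [if_pos h]
      have hfar : far (cls v) := by
        intro w hw hwc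
        exact h (hq_trans _ _ _ (hrq _ _ ((hcls _ _).1 hw)) hwc)
      rw [Finset.sum_eq_single (cls v)]
      · rw [if_pos]
        intro h2
        have h3 : v ∈ cls v := (hcls _ _).2 (hr_refl _)
        exact hfar c (h2.1 h3) (hq_refl c)
      · intro X hX hne
        rw [Finset.mem_filter] at hX
        rw [if_neg]
        rw [not_not]
        constructor
        · intro h2
          exact absurd (hPuniq X hX.1 _ h2) hne
        · intro h2
          exact absurd (hq_refl c) (hX.2 c h2)
      · intro h2
        exact absurd (Finset.mem_filter.2 ⟨hPmem v, hfar⟩) h2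
  have hmain : 2 * P1.card + P3.card ≤
      2 * (M.filter (fun e => ¬ inc a b e ∈ S3)).card +
        (N.filter (fun e => ¬ inc a b e ∈ S1)).card := by
    rw [← hcount, ← hcountN, ← Finset.sum_add_distrib, Finset.card_filter, Finset.card_filter,
      Finset.mul_sum, ← Finset.sum_add_distrib]
    apply Finset.sum_le_sum
    intro X _
    have h1 := h4 X
    rw [hMN] at h1 ⊢
    by_cases hf : far X
    · rw [if_pos hf]
      split_ifs <;> omega
    · rw [if_neg hf]
      have : ¬ (far X ∧ cn a b M X + cn a b N X ≠ 0) := fun h => hf h.1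
      rw [if_neg this]
      split_ifs <;> omega
  -- representatives
  have hrep : ∀ X ∈ P, ∃ w, w ∈ X := by
    intro X hX
    obtain ⟨v, _, rfl⟩ := Finset.mem_image.1 hX
    exact ⟨v, (hcls _ _).2 (hr_refl _)⟩
  have hWe : Nonempty W := ⟨c⟩
  choose! rep hrep using hrep
  have hcr : ∀ e ∈ univ, ∀ w, (w = a e ∨ w = b e) → ¬ inc a b e ∈ S3 →
      ¬ (a e ∈ cls w ↔ b e ∈ cls w) := by
    intro e _ w hw h h2
    apply h
    rw [hE]
    rcases hw with rfl | rfl
    · exact (hcls _ _).1 (h2.1 ((hcls _ _).2 (hr_refl _)))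
    · exact hr_symm _ _ ((hcls _ _).1 (h2.2 ((hcls _ _).2 (hr_refl _))))
  let T1 : Finset (W → F2) := P1.image (fun X => Pi.single (rep X) 1 + Pi.single c 1)
  let T3 : Finset (W → F2) := P3.image (fun X => Pi.single (rep X) 1)
  have hle1 : sp F2 (inc a b) univ ≤ S1 ⊔ Submodule.span F2 (T1 : Set (W → F2)) := by
    unfold sp
    rw [Submodule.span_le]
    rintro _ ⟨e, _, rfl⟩
    by_cases h : inc a b e ∈ S1
    · exact Submodule.mem_sup_left h
    · have h' : ¬ inc a b e ∈ S3 := fun h2 => h (h31 h2)
      have hmem : ∀ w, (w = a e ∨ w = b e) →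
          (Pi.single w 1 + Pi.single c 1 : W → F2) ∈
            S1 ⊔ Submodule.span F2 (T1 : Set (W → F2)) := by
        intro w hw
        by_cases hwc : q w c
        · exact Submodule.mem_sup_left hwc
        have h1 : (Pi.single w 1 + Pi.single (rep (cls w)) 1 : W → F2) ∈ S1 :=
          hrq _ _ ((hcls _ _).1 (hrep _ (hPmem w)))
        have hfar : far (cls w) := by
          intro u hu huc
          exact hwc (hq_trans _ _ _ (hrq _ _ ((hcls _ _).1 hu)) huc)
        have h2 : (Pi.single (rep (cls w)) 1 + Pi.single c 1 : W → F2) ∈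
            Submodule.span F2 (T1 : Set (W → F2)) := by
          apply Submodule.subset_span
          rw [Finset.mem_coe]
          refine Finset.mem_image.2 ⟨cls w, Finset.mem_filter.2 ⟨hPmem _, hfar, ?_⟩, rfl⟩
          unfold cn
          rw [Finset.card_ne_zero]
          exact ⟨e, Finset.mem_filter.2 ⟨Finset.mem_univ _, hcr e (Finset.mem_univ _) w hw h'⟩⟩
        have h3 : (Pi.single w 1 + Pi.single c 1 : W → F2) =
            (Pi.single w 1 + Pi.single (rep (cls w)) 1) +
              (Pi.single (rep (cls w)) 1 + Pi.single c 1) := by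
          rw [show (Pi.single w 1 + Pi.single (rep (cls w)) 1 : W → F2) +
            (Pi.single (rep (cls w)) 1 + Pi.single c 1) = Pi.single w 1 +
              (Pi.single (rep (cls w)) 1 + Pi.single (rep (cls w)) 1) + Pi.single c 1 by abel,
            hself, add_zero]
        rw [h3]
        exact Submodule.add_mem _ (Submodule.mem_sup_left h1) (Submodule.mem_sup_right h2)
      have h5 : inc a b e = (Pi.single (a e) 1 + Pi.single c 1) +
          (Pi.single (b e) 1 + Pi.single c 1) := by
        rw [show (Pi.single (a e) 1 + Pi.single c 1 : W → F2) +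
          (Pi.single (b e) 1 + Pi.single c 1) = (Pi.single (a e) 1 + Pi.single (b e) 1) +
            (Pi.single c 1 + Pi.single c 1) by abel, hself, add_zero]
        rfl
      rw [h5]
      exact Submodule.add_mem _ (hmem _ (Or.inl rfl)) (hmem _ (Or.inr rfl))
  have hle3 : sp F2 (inc a b) M ≤ S3 ⊔ Submodule.span F2 (T3 : Set (W → F2)) := by
    unfold sp
    rw [Submodule.span_le]
    rintro _ ⟨e, heM, rfl⟩
    by_cases h : inc a b e ∈ S3
    · exact Submodule.mem_sup_left h
    · have hmem : ∀ w, (w = a e ∨ w = b e) →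
          (Pi.single w 1 : W → F2) ∈ S3 ⊔ Submodule.span F2 (T3 : Set (W → F2)) := by
        intro w hw
        have h1 : (Pi.single w 1 + Pi.single (rep (cls w)) 1 : W → F2) ∈ S3 :=
          (hcls _ _).1 (hrep _ (hPmem w))
        have h2 : (Pi.single (rep (cls w)) 1 : W → F2) ∈
            Submodule.span F2 (T3 : Set (W → F2)) := by
          apply Submodule.subset_span
          rw [Finset.mem_coe]
          refine Finset.mem_image.2 ⟨cls w, Finset.mem_filter.2 ⟨hPmem _, ?_⟩, rfl⟩
          unfold cn
          rw [Finset.card_ne_zero]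
          exact ⟨e, Finset.mem_filter.2 ⟨Finset.mem_coe.1 heM,
            hcr e (Finset.mem_univ _) w hw h⟩⟩
        have h3 : (Pi.single w 1 : W → F2) =
            (Pi.single w 1 + Pi.single (rep (cls w)) 1) + Pi.single (rep (cls w)) 1 := by
          rw [add_assoc, hself, add_zero]
        rw [h3]
        exact Submodule.add_mem _ (Submodule.mem_sup_left h1) (Submodule.mem_sup_right h2)
      exact Submodule.add_mem _ (hmem _ (Or.inl rfl)) (hmem _ (Or.inr rfl))
  have k1 := Submodule.finrank_mono hle1
  have k2 := Submodule.finrank_add_le_finrank_add_finrank S1 (Submodule.span F2 (T1 : Set (W → F2)))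
  have k3 : Module.finrank F2 (Submodule.span F2 (T1 : Set (W → F2))) ≤ T1.card :=
    finrank_span_finset_le_card T1
  have k4 : T1.card ≤ P1.card := Finset.card_image_le
  have k5 := Submodule.finrank_mono hle3
  have k6 := Submodule.finrank_add_le_finrank_add_finrank S3 (Submodule.span F2 (T3 : Set (W → F2)))
  have k7 : Module.finrank F2 (Submodule.span F2 (T3 : Set (W → F2))) ≤ T3.card :=
    finrank_span_finset_le_card T3
  have k8 : T3.card ≤ P3.card := Finset.card_image_le
  omega

end Flow

end Pool.Agent.W157.SCZ
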